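import Pool.Agent.Run7.h354.BE.Stm

/-!
# Piece COV of the project MP_21b43d_ag (bielliptic surfaces)
-/

set_option autoImplicit false
set_option linter.unusedSectionVars false
set_option linter.unusedVariables false

open CategoryTheory CategoryTheory.Limits Pretriangulated Triangulated Complex ZeroObject
open Pool.Agent.Helper445_GMF

namespace Run7.h824.BE

open Run7.h354.BE

universe v u v' u'

section retract

variable {S : Type u'} [Category.{v'} S] [Preadditive S] [HasZeroObject S]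
  [HasShift S ℤ] [∀ n : ℤ, (shiftFunctor S n).Additive] [Pretriangulated S] [IsTriangulated S]

/-- Semistable objects are closed under retracts. -/
theorem ss_retract (σ : PreStab S) {φ : ℝ} {A D : S} (i : A ⟶ D) (r : D ⟶ A) (h : i ≫ r = 𝟙 A)
    (hD : σ.P φ D) : σ.P φ A := by
  obtain ⟨a, b, hA⟩ := σ.hn A
  rcases σ.HN_nonzero hA with hA | ⟨a, b, _, _, hA⟩
  · exact σ.zero φ A hA
  · obtain ⟨hab, W, hW, f, hf⟩ := σ.HNn_top hA
    obtain ⟨W', hW', f', hf'⟩ := σ.HNn_low hA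
    have hb : b ≤ φ := by
      by_contra hc
      rw [not_le] at hc
      apply hf
      have h0 : f ≫ i = 0 := σ.hom hc hW hD _
      rw [← Category.comp_id f, ← h, ← Category.assoc, h0, zero_comp]
    have ha : φ ≤ a := by
      by_contra hc
      rw [not_le] at hc
      apply hf'
      have h0 : r ≫ f' = 0 := σ.hom hc hD hW' _
      rw [← Category.id_comp f', ← h, Category.assoc, h0, comp_zero]
    cases hA with
    | one hX h0 => rwa [le_antisymm ha hb]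
    | @step φ' a' _ T hT h₁ h₃ h0 hφ =>
      have := σ.HN_le (σ.HNn_HN h₁)
      linarith

end retract

section idem

variable {X : Type u} [Category.{v} X] [Preadditive X] [HasZeroObject X]
  [HasShift X ℤ] [∀ n : ℤ, (shiftFunctor X n).Additive] [Pretriangulated X]

theorem lift_idem {A Y Z : X} {f : A ⟶ Y} {g : Y ⟶ Z} {h : Z ⟶ A⟦(1 : ℤ)⟧}
    (hT : Triangle.mk f g h ∈ distTriang X) {B : X} (j : B ⟶ Y) (t : Y ⟶ B) (hjt : j ≫ t = 𝟙 B)
    (hz : (f ≫ t ≫ j) ≫ g = 0) (hz' : ∀ w : A ⟶ Z⟦(-1 : ℤ)⟧, w = 0) :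
    ∃ e : A ⟶ A, e ≫ f = f ≫ t ≫ j ∧ e ≫ e = e := by
  obtain ⟨e, he⟩ : ∃ e : A ⟶ A, f ≫ t ≫ j = e ≫ f := Triangle.coyoneda_exact₂ _ hT _ hz
  refine ⟨e, he.symm, ?_⟩
  rw [← sub_eq_zero]
  have h0 : (e ≫ e - e) ≫ f = 0 := by
    rw [Preadditive.sub_comp, Category.assoc, ← he, ← Category.assoc e f, ← he]
    simp only [Category.assoc]
    rw [← Category.assoc j t, hjt, Category.id_comp, sub_self]
  obtain ⟨w, hw⟩ := (Triangle.mk f g h).invRotate.coyoneda_exact₂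
    (inv_rot_of_distTriang _ hT) (e ≫ e - e) h0
  have hw0 : w = 0 := hz' w
  rw [hw, hw0]
  exact zero_comp

theorem retract_tri {A Y Z : X} {f : A ⟶ Y} {g : Y ⟶ Z} {h : Z ⟶ A⟦(1 : ℤ)⟧}
    (hT : Triangle.mk f g h ∈ distTriang X) {B₁ B : X} (ι : B₁ ⟶ A) (π : A ⟶ B₁)
    (hιπ : ι ≫ π = 𝟙 B₁) (j : B ⟶ Y) (t : Y ⟶ B) (hjt : j ≫ t = 𝟙 B)
    (hc : π ≫ ι ≫ f = f ≫ t ≫ j) :
    ∃ (C : X) (g' : B ⟶ C) (h' : C ⟶ B₁⟦(1 : ℤ)⟧) (c : C ⟶ Z) (c' : Z ⟶ C),
      Triangle.mk (ι ≫ f ≫ t) g' h' ∈ distTriang X ∧ c ≫ c' = 𝟙 C := by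
  obtain ⟨C, g', h', hC⟩ := distinguished_cocone_triangle (ι ≫ f ≫ t)
  obtain ⟨c, hc1, hc2⟩ : ∃ c : C ⟶ Z, g' ≫ c = j ≫ g ∧ h' ≫ ι⟦(1 : ℤ)⟧' = c ≫ h :=
    complete_distinguished_triangle_morphism _ _ hC hT ι j (by
      show (ι ≫ f ≫ t) ≫ j = ι ≫ f
      simp only [Category.assoc]
      rw [← hc, ← Category.assoc ι π, hιπ, Category.id_comp])
  obtain ⟨c', hc1', hc2'⟩ : ∃ c' : Z ⟶ C, g ≫ c' = t ≫ g' ∧ h ≫ π⟦(1 : ℤ)⟧' = c' ≫ h' :=
    complete_distinguished_triangle_morphism _ _ hT hC π t (by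
      show f ≫ t = π ≫ (ι ≫ f ≫ t)
      have h1 : π ≫ ι ≫ f ≫ t = (π ≫ ι ≫ f) ≫ t := by simp only [Category.assoc]
      rw [h1, hc]
      simp only [Category.assoc]
      rw [hjt, Category.comp_id])
  let ψ : Triangle.mk (ι ≫ f ≫ t) g' h' ⟶ Triangle.mk (ι ≫ f ≫ t) g' h' :=
    { hom₁ := 𝟙 B₁
      hom₂ := 𝟙 B
      hom₃ := c ≫ c'
      comm₁ := by
        show (ι ≫ f ≫ t) ≫ 𝟙 B = 𝟙 B₁ ≫ (ι ≫ f ≫ t)
        rw [Category.comp_id, Category.id_comp]
      comm₂ := by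
        show g' ≫ (c ≫ c') = 𝟙 B ≫ g'
        rw [← Category.assoc, hc1, Category.assoc, hc1', ← Category.assoc, hjt]
      comm₃ := by
        show h' ≫ (𝟙 B₁)⟦(1 : ℤ)⟧' = (c ≫ c') ≫ h'
        rw [Category.assoc, ← hc2', ← Category.assoc, ← hc2, Category.assoc, ← Functor.map_comp,
          hιπ] }
  have hψ : IsIso ψ.hom₃ := isIso₃_of_isIso₁₂ ψ hC hC
    (show IsIso (𝟙 B₁) from inferInstance) (show IsIso (𝟙 B) from inferInstance)
  have hcc : IsIso (c ≫ c') := hψ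
  refine ⟨C, g', h', c, c' ≫ CategoryTheory.inv (c ≫ c'), hC, ?_⟩
  rw [← Category.assoc, IsIso.hom_inv_id]

end idem

section main

variable {X : Type u} [Category.{v} X] [Preadditive X] [HasZeroObject X]
  [HasShift X ℤ] [∀ n : ℤ, (shiftFunctor X n).Additive] [Pretriangulated X] [IsTriangulated X]
  {S : Type u'} [Category.{v'} S] [Preadditive S] [HasZeroObject S]
  [HasShift S ℤ] [∀ n : ℤ, (shiftFunctor S n).Additive] [Pretriangulated S] [IsTriangulated S]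
  {p : X ⥤ S} [p.Additive] [p.CommShift ℤ] [p.IsTriangulated]
  {q : S ⥤ X} [q.Additive] [q.CommShift ℤ] [q.IsTriangulated]
  (i : 𝟭 X ⟶ p ⋙ q) (r : p ⋙ q ⟶ 𝟭 X) (hir : i ≫ r = 𝟙 _)

include hir in
theorem p_faithful {U V : X} (f : U ⟶ V) (h : p.map f = 0) : f = 0 := by
  have h1 : i.app V ≫ r.app V = 𝟙 V := by
    have := congrArg (fun t => t.app V) hir
    exact this
  have h2 : f ≫ i.app V = i.app U ≫ q.map (p.map f) := i.naturality f
  rw [h, q.map_zero, comp_zero] at h2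
  rw [← Category.comp_id f, ← h1, ← Category.assoc, h2, zero_comp]

variable (σ : PreStab S) (hσ : ∀ φ A, σ.P φ A → σ.P φ (p.obj (q.obj A)))

include hσ in
theorem gen_pq {I : Set ℝ} {Y : S} (hY : Gen σ.P I Y) : Gen σ.P I (p.obj (q.obj Y)) := by
  induction hY with
  | zero h => exact .zero (p.map_isZero (q.map_isZero h))
  | ss hφ hX => exact .ss hφ (hσ _ _ hX)
  | ext T hT _ _ h₁ h₃ =>
    exact .ext (p.mapTriangle.obj (q.mapTriangle.obj T))
      (p.map_distinguished _ (q.map_distinguished _ hT)) h₁ h₃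

include hir hσ in
theorem hn_retract [IsIdempotentComplete X] {a b : ℝ} {Y : S} (hY : HN σ.P a b Y) :
    ∀ (B : X) (j : B ⟶ q.obj Y) (t : q.obj Y ⟶ B), j ≫ t = 𝟙 B →
      ∃ a' b', a ≤ a' ∧ b' ≤ b ∧ HN (fun φ B => σ.P φ (p.obj B)) a' b' B := by
  induction hY with
  | @one φ Y hY =>
    intro B j t hjt
    refine ⟨φ, φ, le_rfl, le_rfl, .one ?_⟩
    refine ss_retract σ (p.map j) (p.map t) ?_ (hσ _ _ hY)
    rw [← p.map_comp, hjt, p.map_id]
  | @step φ a b T hT h₁ h₃ hφ ih =>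
    intro B j t hjt
    have hT' : Triangle.mk (q.map T.mor₁) (q.map T.mor₂)
        (q.map T.mor₃ ≫ (q.commShiftIso (1 : ℤ)).hom.app T.obj₁) ∈ distTriang X :=
      q.map_distinguished _ hT
    have hg1 : Gen σ.P (Set.Icc a b) (p.obj (q.obj T.obj₁)) := gen_pq σ hσ (σ.HN_gen h₁)
    have hg3 : Gen σ.P {φ} (p.obj (q.obj T.obj₃)) := .ss (Set.mem_singleton _) (hσ _ _ h₃)
    have hab := σ.HN_le h₁
    obtain ⟨e₁, he₁, hid⟩ := lift_idem hT' j t hjt (by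
      refine p_faithful i r hir _ (Gen.hom_zero σ ?_ hg1 hg3 _)
      rintro s hs s' rfl
      exact lt_of_lt_of_le hφ hs.1) (by
      intro w
      refine p_faithful i r hir _ ?_
      have e : p.obj ((q.obj T.obj₃)⟦(-1 : ℤ)⟧) ≅ (p.obj (q.obj T.obj₃))⟦(-1 : ℤ)⟧ :=
        (p.commShiftIso (-1 : ℤ)).app _
      have hg3' : Gen σ.P {s | s + 1 ∈ ({φ} : Set ℝ)} (p.obj ((q.obj T.obj₃)⟦(-1 : ℤ)⟧)) :=
        (Gen.shift_neg σ hg3).ofIso e.symm
      refine Gen.hom_zero σ ?_ hg1 hg3' _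
      rintro s hs s' hs'
      have h1 : s' + 1 = φ := hs'
      have h2 := hs.1
      linarith)
    obtain ⟨B₁, ι, π, hιπ, hπι⟩ := IsIdempotentComplete.idempotents_split _ e₁ hid
    obtain ⟨C, g, h, c, c', hC, hcc⟩ := retract_tri hT' ι π hιπ j t hjt (by
      rw [← Category.assoc, hπι, he₁])
    have hPC : σ.P φ (p.obj C) := by
      refine ss_retract σ (p.map c) (p.map c') ?_ (hσ _ _ h₃)
      rw [← p.map_comp, hcc, p.map_id]
    obtain ⟨a', b', ha', hb', hB₁⟩ := ih B₁ ι π hιπ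
    refine ⟨φ, b', le_rfl, hb', ?_⟩
    exact .step (Triangle.mk (ι ≫ q.map T.mor₁ ≫ t) g h) hC hB₁ hPC (lt_of_lt_of_le hφ ha')

end main

/-- COV. -/
theorem p_COV : S_COV.{v, u, v', u'} := by
  intro X _ _ _ _ _ _ _ S _ _ _ _ _ _ _ p _ _ _ q _ _ _ i r hir _ σ hσ
  have hret : ∀ B : X, i.app B ≫ r.app B = 𝟙 B := by
    intro B
    have := congrArg (fun t => t.app B) hir
    exact this
  refine ⟨{
    Z := fun B => σ.Z (p.obj B)
    P := fun φ B => σ.P φ (p.obj B)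
    add := fun T hT => σ.add _ (p.map_distinguished T hT)
    iso := fun e h => σ.iso (p.mapIso e) h
    zero := fun φ B h => σ.zero φ _ (p.map_isZero h)
    phase := ?_
    shift := ?_
    hom := ?_
    hn := ?_ }, fun _ => rfl, fun _ _ => Iff.rfl⟩
  · intro φ B hB h0
    refine σ.phase φ _ hB fun h => h0 ?_
    rw [IsZero.iff_id_eq_zero]
    refine p_faithful i r hir _ ?_
    exact h.eq_of_src _ _
  · intro φ B
    have e : p.obj (B⟦(1 : ℤ)⟧) ≅ (p.obj B)⟦(1 : ℤ)⟧ := (p.commShiftIso (1 : ℤ)).app B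
    rw [← σ.shift φ (p.obj B)]
    exact ⟨fun h => σ.iso e h, fun h => σ.iso e.symm h⟩
  · intro φ φ' B B' h hB hB' f
    exact p_faithful i r hir _ (σ.hom h hB hB' _)
  · intro B
    obtain ⟨a, b, h⟩ := σ.hn (p.obj B)
    obtain ⟨a', b', _, _, h'⟩ := hn_retract i r hir σ hσ h B (i.app B) (r.app B) (hret B)
    exact ⟨a', b', h'⟩

end Run7.h824.BE
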