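import Pool.Agent.Run7.h354.BE.Stm

/-!
# Piece ORB of the project MP_21b43d_ag (bielliptic surfaces)
-/

set_option autoImplicit false
set_option linter.unusedSectionVars false
set_option linter.unusedVariables false

open CategoryTheory CategoryTheory.Limits Pretriangulated Triangulated Complex ZeroObject
open Pool.Agent.Helper445_GMF

namespace Run7.h824.BE

open Run7.h354.BE

universe v u v' u'

variable {C : Type u} [Category.{v} C] [Preadditive C] [Linear ℂ C] [HasZeroObject C]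
  [HasShift C ℤ] [∀ n : ℤ, (shiftFunctor C n).Additive] [Pretriangulated C]

section twist

variable {τ : ℂ} (E : EA τ C)

theorem g0_mul (c d : ℂˣ) : g0 c + g0 d = g0 (c * d) := by
  refine Prod.ext ?_ rfl
  show (0 : ℤ) + 0 = 0
  simp

theorem g0_one : g0 1 = 0 := rfl

theorem tw_mul (c d : ℂˣ) (G : C) :
    Nonempty (E.tw (g0 d) (E.tw (g0 c) G) ≅ E.tw (g0 (c * d)) G) := by
  have e := (E.comp (g0 c) (g0 d)).app G
  rw [g0_mul] at e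
  exact ⟨e⟩

theorem tw_one (G : C) : Nonempty (E.tw (g0 1) G ≅ G) := ⟨E.zero.app G⟩

theorem tw_congr {c d : ℂˣ} (h : c = d) (G : C) : Nonempty (E.tw (g0 c) G ≅ E.tw (g0 d) G) := by
  subst h; exact ⟨Iso.refl _⟩

theorem tw_iso (c : ℂˣ) {G H : C} (e : Nonempty (G ≅ H)) :
    Nonempty (E.tw (g0 c) G ≅ E.tw (g0 c) H) :=
  e.elim fun e => ⟨(E.Φ.obj ⟨g0 c⟩).mapIso e⟩

theorem tw_inv (c : ℂˣ) (G : C) : Nonempty (E.tw (g0 c⁻¹) (E.tw (g0 c) G) ≅ G) := by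
  obtain ⟨e⟩ := tw_mul E c c⁻¹ G
  obtain ⟨e'⟩ := tw_congr E (mul_inv_cancel c) G
  obtain ⟨e''⟩ := tw_one E G
  exact ⟨e ≪≫ e' ≪≫ e''⟩

theorem tw_inv' (c : ℂˣ) (G : C) : Nonempty (E.tw (g0 c) (E.tw (g0 c⁻¹) G) ≅ G) := by
  have := tw_inv E c⁻¹ G
  rwa [inv_inv] at this

theorem tw_zero (c : ℂˣ) {G : C} (h : IsZero G) : IsZero (E.tw (g0 c) G) := by
  have := E.add ⟨g0 c⟩
  exact Functor.map_isZero _ h

theorem tw_zero_iff (c : ℂˣ) {G : C} (h : IsZero (E.tw (g0 c) G)) : IsZero G := by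
  obtain ⟨e⟩ := tw_inv E c G
  exact (tw_zero E c⁻¹ h).of_iso e.symm

theorem tw_map_ne (c : ℂˣ) {G H : C} (f : G ⟶ H) (hf : f ≠ 0) :
    (E.Φ.obj ⟨g0 c⟩).map f ≠ 0 := by
  intro h
  have hadd := E.add ⟨g0 c⁻¹⟩
  have h1 : (E.Φ.obj ⟨g0 c⟩ ⋙ E.Φ.obj ⟨g0 c⁻¹⟩).map f = 0 := by
    rw [Functor.comp_map, h, Functor.map_zero]
  have e : E.Φ.obj ⟨g0 c⟩ ⋙ E.Φ.obj ⟨g0 c⁻¹⟩ ≅ 𝟭 C := by
    refine E.comp (g0 c) (g0 c⁻¹) ≪≫ eqToIso ?_ ≪≫ E.zero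
    rw [g0_mul, mul_inv_cancel, g0_one]
  apply hf
  have h2 := e.hom.naturality f
  rw [h1, zero_comp] at h2
  have h3 : e.hom.app G ≫ f = 0 := h2.symm
  rw [← cancel_epi (e.hom.app G), h3, comp_zero]

theorem tw_stable {σ : PreStab C} (hP : ∀ φ G c, σ.P φ G → σ.P φ (E.tw (g0 c) G)) {φ : ℝ} {A : C}
    (hA : σ.Stable φ A) (c : ℂˣ) : σ.Stable φ (E.tw (g0 c) A) := by
  refine ⟨hP _ _ _ hA.1, fun h => hA.2.1 (tw_zero_iff E c h), ?_⟩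
  intro A₁ B₁ f g h hT h1 h2
  obtain ⟨k, hk⟩ := E.tri ⟨g0 c⁻¹⟩ _ hT
  obtain ⟨e⟩ := tw_inv E c A
  have := dist_mid hk e
  rcases hA.2.2 _ _ _ _ _ this (hP _ _ _ h1) (hP _ _ _ h2) with h | h
  · exact Or.inl (tw_zero_iff E _ h)
  · exact Or.inr (tw_zero_iff E _ h)

end twist

section hn

variable [IsTriangulated C] (σ : PreStab C)

theorem top_part {a b : ℝ} {X : C} (h : HNn σ.P a b X) :
    ∃ (A B : C) (f : A ⟶ X) (g : X ⟶ B) (k : B ⟶ A⟦(1 : ℤ)⟧), Triangle.mk f g k ∈ distTriang C ∧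
      σ.P b A ∧ Gen σ.P (Set.Iio b) B := by
  induction h with
  | @one φ X hX h0 =>
    exact ⟨X, 0, 𝟙 X, 0, 0, contractible_distinguished X, hX, .zero (isZero_zero C)⟩
  | @step φ a b T hT h₁ h₃ h0 hφ ih =>
    obtain ⟨A, B, f, g, k, hk, hA, hB⟩ := ih
    obtain ⟨V, v, w, hV⟩ := distinguished_cocone_triangle (f ≫ T.mor₁)
    have o := someOctahedron rfl hk hT hV
    have hab := σ.HN_le (σ.HNn_HN h₁)
    exact ⟨A, V, _, v, w, hV, hA, .ext _ o.mem hB (.ss (Set.mem_Iio.2 (by linarith)) h₃)⟩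

theorem bot_part {a b : ℝ} {X : C} (h : HNn σ.P a b X) :
    ∃ (A B : C) (f : A ⟶ X) (g : X ⟶ B) (k : B ⟶ A⟦(1 : ℤ)⟧), Triangle.mk f g k ∈ distTriang C ∧
      σ.P a B ∧ Gen σ.P (Set.Ioi a) A := by
  cases h with
  | one hX h0 =>
    exact ⟨0, X, 0, 𝟙 X, 0, contractible_distinguished₁ X, hX, .zero (isZero_zero C)⟩
  | @step φ a b T hT h₁ h₃ h0 hφ =>
    exact ⟨_, _, _, _, _, hT, h₃, (σ.HN_gen (σ.HNn_HN h₁)).mono
      fun x hx => lt_of_lt_of_le hφ hx.1⟩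

/-- The finiteness needed for ORB. -/
theorem fin_list (hJ : S_JH.{v, u}) (hg : Gap σ) (φ : ℝ) (O A : C) (hA : σ.P φ A) :
    ((∃ f : A ⟶ O, f ≠ 0) ∧ (∀ ψ > φ, ∀ B, σ.P ψ B → ∀ f : B ⟶ O, f = 0) →
      ∃ l : List C, ∀ A' : C, σ.Stable φ A' → (∃ f : A' ⟶ O, f ≠ 0) → ∃ B ∈ l, Nonempty (A' ≅ B)) ∧
    ((∃ f : O ⟶ A, f ≠ 0) ∧ (∀ ψ < φ, ∀ B, σ.P ψ B → ∀ f : O ⟶ B, f = 0) →
      ∃ l : List C, ∀ A' : C, σ.Stable φ A' → (∃ f : O ⟶ A', f ≠ 0) → ∃ B ∈ l, Nonempty (A' ≅ B)) := by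
  have hO : (¬ IsZero O) → ∃ a b : ℝ, HNn σ.P a b O := by
    intro h0
    obtain ⟨a, b, h⟩ := σ.hn O
    rcases σ.HN_nonzero h with h | ⟨a', b', _, _, h⟩
    · exact absurd h h0
    · exact ⟨a', b', h⟩
  constructor
  · rintro ⟨⟨f, hf⟩, hmax⟩
    obtain ⟨a, b, h⟩ := hO fun h => hf (h.eq_of_tgt _ _)
    have hb : b = φ := by
      refine le_antisymm ?_ ?_
      · by_contra hc
        rw [not_le] at hc
        obtain ⟨_, B, hB, g, hg⟩ := σ.HNn_top h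
        exact hg (hmax b hc B hB g)
      · by_contra hc
        rw [not_le] at hc
        refine hf (Gen.hom_zero σ ?_ (Gen.ss (Set.mem_singleton _) hA) (σ.HN_gen (σ.HNn_HN h)) f)
        rintro s hs s' hs'
        rw [Set.mem_singleton_iff] at hs
        rw [hs]
        exact lt_of_le_of_lt hs'.2 hc
    subst hb
    obtain ⟨X, B, t, g, k, hk, hX, hB⟩ := top_part σ h
    obtain ⟨l, hl⟩ := ((hJ C σ b).2.2.2.2 hg X hX).2
    refine ⟨l, fun A' hA' ⟨f', hf'⟩ => hl A' hA' (Or.inl ?_)⟩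
    have h0 : f' ≫ g = 0 := Gen.hom_zero σ (by
      rintro s hs s' hs'
      rw [Set.mem_singleton_iff] at hs
      rw [hs]; exact hs') (Gen.ss (Set.mem_singleton _) hA'.1) hB _
    obtain ⟨m, hm⟩ := Triangle.coyoneda_exact₂ _ hk f' h0
    exact ⟨m, fun h => hf' (by rw [hm, h]; exact zero_comp)⟩
  · rintro ⟨⟨f, hf⟩, hmin⟩
    obtain ⟨a, b, h⟩ := hO fun h => hf (h.eq_of_src _ _)
    have ha : a = φ := by
      refine le_antisymm ?_ ?_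
      · by_contra hc
        rw [not_le] at hc
        refine hf (Gen.hom_zero σ ?_ (σ.HN_gen (σ.HNn_HN h)) (Gen.ss (Set.mem_singleton _) hA) f)
        rintro s hs s' hs'
        rw [Set.mem_singleton_iff] at hs'
        rw [hs']
        exact lt_of_lt_of_le hc hs.1
      · by_contra hc
        rw [not_le] at hc
        obtain ⟨B, hB, g, hg⟩ := σ.HNn_low h
        exact hg (hmin a hc B hB g)
    subst ha
    obtain ⟨A₁, X, t, g, k, hk, hX, hA₁⟩ := bot_part σ h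
    obtain ⟨l, hl⟩ := ((hJ C σ a).2.2.2.2 hg X hX).2
    refine ⟨l, fun A' hA' ⟨f', hf'⟩ => hl A' hA' (Or.inr ?_)⟩
    have h0 : t ≫ f' = 0 := Gen.hom_zero σ (by
      rintro s hs s' hs'
      rw [Set.mem_singleton_iff] at hs'
      rw [hs']; exact hs) hA₁ (Gen.ss (Set.mem_singleton _) hA'.1) _
    obtain ⟨m, hm⟩ := Triangle.yoneda_exact₂ _ hk f' h0
    exact ⟨m, fun h => hf' (by rw [hm, h]; exact comp_zero)⟩

end hn

theorem tw_pow_iso {τ : ℂ} (E : EA τ C) {A : C} {d : ℂˣ} (h : Nonempty (E.tw (g0 d) A ≅ A)) :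
    ∀ m : ℕ, Nonempty (E.tw (g0 (d ^ m)) A ≅ A)
  | 0 => by
      obtain ⟨e⟩ := tw_congr E (pow_zero d) A
      obtain ⟨e'⟩ := tw_one E A
      exact ⟨e ≪≫ e'⟩
  | m + 1 => by
      obtain ⟨e⟩ := tw_pow_iso E h m
      obtain ⟨e1⟩ := tw_congr E (pow_succ d m) A
      obtain ⟨e2⟩ := tw_mul E (d ^ m) d A
      obtain ⟨e3⟩ := tw_iso E d ⟨e⟩
      obtain ⟨e4⟩ := h
      exact ⟨e1 ≪≫ e2.symm ≪≫ e3 ≪≫ e4⟩

/-- The group of units of `ℂ` is divisible. -/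
theorem orb_core {τ : ℂ} (E : EA τ C) (A : C) (l : List C)
    (h : ∀ c, ∃ B ∈ l, Nonempty (E.tw (g0 c) A ≅ B)) (c : ℂˣ) :
    Nonempty (E.tw (g0 c) A ≅ A) := by
  set n := l.length.factorial with hn
  have hn0 : 0 < n := Nat.factorial_pos _
  obtain ⟨z, hz⟩ := IsAlgClosed.exists_pow_nat_eq (c : ℂ) hn0
  have hz0 : z ≠ 0 := by
    rintro rfl
    rw [zero_pow hn0.ne'] at hz
    exact c.ne_zero hz.symm
  set d : ℂˣ := Units.mk0 z hz0 with hd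
  have hdc : d ^ n = c := Units.ext (by simpa [hd] using hz)
  have h' : ∀ i : ℕ, ∃ k : Fin l.length, Nonempty (E.tw (g0 (d ^ i)) A ≅ l.get k) := by
    intro i
    obtain ⟨B, hB, e⟩ := h (d ^ i)
    obtain ⟨k, hk⟩ := List.mem_iff_get.1 hB
    exact ⟨k, by rw [hk]; exact e⟩
  choose k hk using h'
  obtain ⟨i, j, hij, hkij⟩ := Fintype.exists_ne_map_eq_of_card_lt
    (fun i : Fin (l.length + 1) => k i) (by simp)
  have key : ∀ i j : ℕ, i < j → j < l.length + 1 → k i = k j →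
      ∃ m : ℕ, 0 < m ∧ m ≤ l.length ∧ Nonempty (E.tw (g0 (d ^ m)) A ≅ A) := by
    intro i j hij hj hkij
    refine ⟨j - i, by omega, by omega, ?_⟩
    obtain ⟨e1⟩ := hk i
    obtain ⟨e2⟩ := hk j
    rw [← hkij] at e2
    obtain ⟨e3⟩ := tw_iso E (d ^ i)⁻¹ ⟨e2 ≪≫ e1.symm⟩
    obtain ⟨e4⟩ := tw_mul E (d ^ j) (d ^ i)⁻¹ A
    obtain ⟨e5⟩ := tw_inv E (d ^ i) A
    obtain ⟨e6⟩ := tw_congr E (show d ^ (j - i) = d ^ j * (d ^ i)⁻¹ by
      rw [pow_sub d hij.le]) A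
    exact ⟨e6 ≪≫ e4.symm ≪≫ e3 ≪≫ e5⟩
  have : ∃ m : ℕ, 0 < m ∧ m ≤ l.length ∧ Nonempty (E.tw (g0 (d ^ m)) A ≅ A) := by
    rcases lt_or_gt_of_ne (fun h => hij (Fin.ext h) : (i : ℕ) ≠ j) with h1 | h1
    · exact key i j h1 j.2 hkij
    · exact key j i h1 i.2 hkij.symm
  obtain ⟨m, hm0, hm, hiso⟩ := this
  obtain ⟨q, hq⟩ : m ∣ n := Nat.dvd_factorial hm0 hm
  obtain ⟨e⟩ := tw_pow_iso E hiso q
  obtain ⟨e'⟩ := tw_congr E (show c = (d ^ m) ^ q by rw [← pow_mul, ← hq, hdc]) A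
  exact ⟨e' ≪≫ e⟩

/-- ORB. -/
theorem p_ORB (hJ : S_JH.{v, u}) : S_ORB.{v, u} := by
  intro C _ _ _ _ _ _ _ _ τ E σ hg hP O hO φ A hA hcase
  have hl := fin_list σ hJ hg φ O A hA.1
  rcases hcase with hc | hc
  · obtain ⟨l, hl⟩ := hl.1 hc
    obtain ⟨⟨f, hf⟩, -⟩ := hc
    refine orb_core E A l fun c => hl _ (tw_stable E hP hA c) ?_
    obtain ⟨e⟩ := hO c
    refine ⟨(E.Φ.obj ⟨g0 c⟩).map f ≫ e.hom, fun h => tw_map_ne E c f hf ?_⟩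
    rwa [Preadditive.IsIso.comp_right_eq_zero] at h
  · obtain ⟨l, hl⟩ := hl.2 hc
    obtain ⟨⟨f, hf⟩, -⟩ := hc
    refine orb_core E A l fun c => hl _ (tw_stable E hP hA c) ?_
    obtain ⟨e⟩ := hO c
    refine ⟨e.inv ≫ (E.Φ.obj ⟨g0 c⟩).map f, fun h => tw_map_ne E c f hf ?_⟩
    rwa [Preadditive.IsIso.comp_left_eq_zero] at h

end Run7.h824.BE
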