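import Pool.Agent.Run7.h824.BE.Orb

/-!
# Piece SUP of the project MP_21b43d_ag (bielliptic surfaces)
-/

set_option autoImplicit false
set_option linter.unusedSectionVars false
set_option linter.unusedVariables false

open CategoryTheory CategoryTheory.Limits Pretriangulated Triangulated Complex ZeroObject
open Pool.Agent.Helper445_GMF

namespace Run7.h824.BE

open Run7.h354.BE

universe v u v' u'

variable {C : Type u} [Category.{v} C] [Preadditive C] [Linear ℂ C] [HasZeroObject C]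
  [HasShift C ℤ] [∀ n : ℤ, (shiftFunctor C n).Additive] [Pretriangulated C]

section

variable {τ : ℂ}

theorem V_add_int {γ : Gam} {f : ℂ → ℂ} (hf : f ∈ V τ γ) (m : ℤ) (z : ℂ) : f (z + m) = f z := by
  have h : Function.Periodic f 1 := hf.2.1
  have := h.int_mul m z
  simpa using this

theorem V_add_tau {γ : Gam} {f : ℂ → ℂ} (hf : f ∈ V τ γ) (z : ℂ) : f (z + τ) = 0 ↔ f z = 0 := by
  rw [hf.2.2 z, mul_eq_zero, or_iff_right]
  exact mul_ne_zero (Gam.c_ne γ) (exp_ne_zero _)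

theorem V_add_int_tau {γ : Gam} {f : ℂ → ℂ} (hf : f ∈ V τ γ) (n : ℤ) :
    ∀ z : ℂ, f (z + n * τ) = 0 ↔ f z = 0 := by
  induction n using Int.induction_on with
  | zero => intro z; simp
  | succ n ih =>
    intro z
    have h := V_add_tau hf (z + n * τ)
    rw [← ih z]
    push_cast at h ⊢
    rw [show z + ((n : ℂ) + 1) * τ = z + n * τ + τ by ring]
    exact h
  | pred n ih =>
    intro z
    rw [← V_add_tau hf, ← ih z]
    push_cast
    rw [show z + (-(n : ℂ) - 1) * τ + τ = z + -(n : ℂ) * τ by ring]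

theorem V_congr {γ : Gam} {f : ℂ → ℂ} (hf : f ∈ V τ γ) {z a : ℂ} (h : Cg τ z a) :
    f z = 0 ↔ f a = 0 := by
  obtain ⟨m, n, h⟩ := h
  have e : z = a + n * τ + m := by linear_combination h
  rw [e, V_add_int hf, V_add_int_tau hf]

variable (E : EA τ C)

theorem twG_map_ne (a : Gam) {G H : C} (f : G ⟶ H) (hf : f ≠ 0) :
    (E.Φ.obj ⟨a⟩).map f ≠ 0 := by
  intro h
  have hadd := E.add ⟨-a⟩
  have h1 : (E.Φ.obj ⟨a⟩ ⋙ E.Φ.obj ⟨-a⟩).map f = 0 := by
    rw [Functor.comp_map, h, Functor.map_zero]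
  have e : E.Φ.obj ⟨a⟩ ⋙ E.Φ.obj ⟨-a⟩ ≅ 𝟭 C := by
    refine E.comp a (-a) ≪≫ eqToIso ?_ ≪≫ E.zero
    rw [add_neg_cancel]
  apply hf
  have h2 := e.hom.naturality f
  rw [h1, zero_comp] at h2
  have h3 : e.hom.app G ≫ f = 0 := h2.symm
  rw [← cancel_epi (e.hom.app G), h3, comp_zero]

theorem gu_eq (z a : ℂ) : gu z = g0 (Units.mk0 (exp (2 * Real.pi * I * (z - a))) (exp_ne_zero _)) +
    gu a := by
  refine Gam.ext' ?_ ?_
  · show (1 : ℤ) = 0 + 1
    simp
  · rw [Gam.c_add]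
    simp only [gu, g0, Gam.c, toMul_ofMul, Units.val_neg, Units.val_mk0]
    rw [mul_neg, ← exp_add]
    congr 2
    ring

theorem stable_iso {σ : PreStab C} {φ : ℝ} {A B : C} (e : A ≅ B) (hA : σ.Stable φ A) :
    σ.Stable φ B := by
  refine ⟨σ.iso e hA.1, fun h => hA.2.1 (h.of_iso e), ?_⟩
  intro A₁ B₁ f g h hT h1 h2
  exact hA.2.2 _ _ _ _ _ (dist_mid hT e.symm) h1 h2

end

/-- SUP. -/
theorem p_SUP (hJ : S_JH.{v, u}) : S_SUP.{v, u} := by
  intro C _ _ _ _ _ _ _ _ τ hτ u hu E σ φ A hA hc γ f hf hf0 hact O z hz hO hmap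
  obtain ⟨a, ha⟩ : ∃ a, f a ≠ 0 := by
    by_contra h
    push Not at h
    exact hf0 (funext h)
  have hua : u a ∈ V τ (gu a - 0) := by rw [sub_zero]; exact hu.mem a
  have hiso : IsIso (E.act (u a) hua A) := by
    refine E.kos A γ (gu a) f (u a) hf hua ?_ hact
    intro w
    by_cases hw : u a w = 0
    · left
      rw [hu.zero] at hw
      intro h
      exact ha ((V_congr hf hw).1 h)
    · exact Or.inr hw
  have e0 : E.tw 0 A ≅ A := E.zero.app A
  have ea : E.tw (gu a) A ≅ A := (asIso (E.act (u a) hua A)).symm ≪≫ e0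
  have ez : Nonempty (E.tw (gu z) A ≅ A) := by
    obtain ⟨e1⟩ := hc (Units.mk0 (exp (2 * Real.pi * I * (z - a))) (exp_ne_zero _))
    have e2 := (E.comp (g0 (Units.mk0 (exp (2 * Real.pi * I * (z - a))) (exp_ne_zero _)))
      (gu a)).app A
    rw [← gu_eq z a] at e2
    exact ⟨e2.symm ≪≫ (E.Φ.obj ⟨gu a⟩).mapIso e1 ≪≫ ea⟩
  obtain ⟨ez⟩ := ez
  by_contra hne
  have hI : IsIso (E.act (u z) hz A) :=
    (hJ C σ φ).2.1 _ _ _ (stable_iso e0.symm hA) (stable_iso ez.symm hA) hne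
  rcases hmap with ⟨g, hg⟩ | ⟨g, hg⟩
  · have hn := (E.Φ.map (gm (u z) hz)).naturality g
    have hO' : (E.Φ.map (gm (u z) hz)).app O = 0 := hO
    rw [hO', comp_zero] at hn
    have h3 : E.act (u z) hz A ≫ (E.Φ.obj ⟨gu z⟩).map g = 0 := hn.symm
    rw [Preadditive.IsIso.comp_left_eq_zero] at h3
    exact twG_map_ne E _ g hg h3
  · have hn := (E.Φ.map (gm (u z) hz)).naturality g
    have hO' : (E.Φ.map (gm (u z) hz)).app O = 0 := hO
    rw [hO', zero_comp] at hn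
    have h3 : (E.Φ.obj ⟨0⟩).map g ≫ E.act (u z) hz A = 0 := hn
    rw [Preadditive.IsIso.comp_right_eq_zero] at h3
    exact twG_map_ne E _ g hg h3

end Run7.h824.BE
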